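import Pool.Agent.Q289.OP.Fin
import Pool.Agent.W695.KH.Defs

/-!
# Project BG: KLS for the unconditional bodies of bipartite graphs

For a bipartite graph `G` the body `{x | |x_i| ≤ 1, |x_i| + |x_j| ≤ 1 for all edges ij}` is symmetric under all
sign changes of the coordinates. Its part in the positive orthant is `Up G`, which is an order polytope after the
reflections `x_i ↦ 1 - x_i` in one of the two classes. `EV D f` is the mean of `f` over `D`, `VV D f` the variance.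
-/

set_option autoImplicit false

namespace Q289.BG

open MeasureTheory Set
open scoped ENNReal InnerProductSpace
open Pool.Agent.W695.KH (Eu EV VV)

variable {ι : Type} [Fintype ι]

/-- sign changes -/
noncomputable def sg (σ : ι → Bool) (x : Eu ι) : Eu ι :=
  WithLp.toLp 2 fun i => if σ i = true then -x i else x i

/-- absolute values -/
noncomputable def ab (x : Eu ι) : Eu ι := WithLp.toLp 2 fun i => |x i|

open Classical in
/-- the reflections `x_i ↦ 1 - x_i` for `i` in the class `c` -/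
noncomputable def fl (c : Set ι) (x : Eu ι) : Eu ι :=
  WithLp.toLp 2 fun i => if i ∈ c then 1 - x i else x i

/-- the part in the positive orthant -/
def Up (G : SimpleGraph ι) : Set (Eu ι) :=
  {y | (∀ i, y i ∈ Icc (0 : ℝ) 1) ∧ ∀ i j, G.Adj i j → y i + y j ≤ 1}

/-- the open body -/
def Om (G : SimpleGraph ι) : Set (Eu ι) :=
  {x | (∀ i, |x i| < 1) ∧ ∀ i j, G.Adj i j → |x i| + |x j| < 1}

/-- Poincare inequality for the uniform measure on `D` -/
def PI (D : Set (Eu ι)) (C : ℝ) : Prop :=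
  ∀ f : Eu ι → ℝ, ContDiff ℝ 1 f → VV D f ≤ C * EV D fun x => ‖fderiv ℝ f x‖ ^ 2

/-- solid subsets of the unit cube, in the positive orthant -/
structure Sol (D : Set (Eu ι)) : Prop where
  comp : IsCompact D
  pos : 0 < volume D
  cube : ∀ y ∈ D, ∀ i, y i ∈ Icc (0 : ℝ) 1
  down : ∀ y ∈ D, ∀ z : Eu ι, (∀ i, 0 ≤ z i ∧ z i ≤ y i) → z ∈ D

/-- JOB SOL. Closed and bounded (finite dimension); it contains all `y` with `0 < y i < 1/2`, an open set;
`down` is clear. -/
def S_SOL : Prop := ∀ (ι : Type) [Fintype ι] (G : SimpleGraph ι), Sol (Up G)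

/-- JOB TRN. Let `C` be a 2-colouring of `G`, `c` the class of colour `1`. The relation
`i ≤ j :⇔ i = j ∨ (G.Adj i j ∧ i ∉ c ∧ j ∈ c)` is a partial order (two strict steps in a row are impossible).
`fl c` is a measurable involution which preserves the volume (coordinatewise `x_i ↦ x_i` or `x_i ↦ 1 - x_i`;
product measure, or: an affine isometry), and `fl c x ∈ Up G ↔ x ∈ OPo ι 0 1`: for an edge `ij` exactly one of `i`,
`j` is in `c`, say `j`, and `x_i + (1 - x_j) ≤ 1 ↔ x_i ≤ x_j`. So the integrals over `Up G` and the volume go over. -/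
def S_TRN : Prop := ∀ (ι : Type) [Fintype ι] (G : SimpleGraph ι), G.Colorable 2 →
  ∃ (P : PartialOrder ι) (c : Set ι), ∀ g : Eu ι → ℝ,
    EV (Up G) g = EV (@Q289.OP.OPo ι _ P 0 1) fun x => g (fl c x)

/-- JOB POO. Poincare inequality for order polytopes, constant one.
`Q289.OP.tS : S_T` for `φ = (Icc 0 1).indicator 1` and `C = cc φ` (see `poly_poin` in `Pool/Agent/Q289/OP/Fin1.lean`,
which does this for `|f| ≤ 1`; use `Q237.OP.Lc1.onedlc`, and `Q237.OP.Ord.ord` for: `mu ι φ` is the normalised volume on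
`OPo ι 0 1`, `LC1 φ`). `cc φ = ((∫ φ) / φ(Q))^2 = 1` since `∫ φ = 1` and `φ(Q) > 0`, `φ` has only the values `0` and `1`.
(`φ(Q) > 0`: `Q` is in the open set where `φ` is positive, `LC1.Q_mem`, `LC1.F_pos` in `Pool.Agent.Q73.KL`; or from
`0 < cc φ`.) `f` is bounded on the compact set, so the extended variance is the variance `VV`. -/
def S_POO : Prop := ∀ (ι : Type) [Fintype ι] [PartialOrder ι], PI (Q289.OP.OPo ι 0 1) 1

/-- JOB REF. From `S_TRN` and `S_POO`: `f ∘ fl c` is `C¹` and `‖fderiv (f ∘ fl c) x‖ = ‖fderiv f (fl c x)‖` because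
`fl c` is a linear isometry plus a constant (or bound it by `≤`, from the partial derivatives: the norm square is the sum
of the squares of the partial derivatives). -/
def S_REF : Prop := ∀ (ι : Type) [Fintype ι] (G : SimpleGraph ι), G.Colorable 2 → PI (Up G) 1

/-- JOB SIX. Symmetric functions do not see the order. `Pool.Agent.Q25.OP.sym : Q289.OP.S_SYM` (statement in
`Pool/Agent/Q289/OP/Stm2.lean`) for `G x = ofReal (∑ x_i (1 - x_i))` times the indicator function of the cube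
`[0, 1]^ι` and for the indicator function of the cube: both integrals over the monotone maps are `κ` times the
integrals over the cube, and the mean of `x_i (1 - x_i)` over the cube is `1/6` (Fubini:
`integral_fintype_prod_eq_prod` or `MeasureTheory.integral_fintype_prod_volume_eq_prod`; or a measure preserving
projection `measurePreserving_eval`). -/
def S_SIX : Prop := ∀ (ι : Type) [Fintype ι] [PartialOrder ι],
  EV (Q289.OP.OPo ι 0 1) (fun x => ∑ i, x i * (1 - x i)) = Fintype.card ι / 6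

/-- JOB HAL. From `S_TRN`, `S_SIX`, `S_SOL`. With `n = card ι ≥ 1`: `fl c` maps `x_i (1 - x_i)` to itself, so
`n / 6 = EV (Up G) (∑ y_i (1 - y_i)) ≤ ∑ EV y_i ≤ ∑ √(EV y_i²) ≤ n √s`. -/
def S_HAL : Prop := ∀ (ι : Type) [Fintype ι] [Nonempty ι] (G : SimpleGraph ι), G.Colorable 2 →
  ∀ s : ℝ, (∀ i, EV (Up G) (fun y => y i ^ 2) ≤ s) → 1 / 36 ≤ s

/-- JOB CHV. The sets `sg σ '' D` cover `{x | ab x ∈ D}`; they overlap in null sets (`x_i = 0` for some `i`); `sg σ`
is a linear isometry and preserves the volume. -/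
def S_CHV : Prop := ∀ (ι : Type) [Fintype ι] [DecidableEq ι] (D : Set (Eu ι)), Sol D →
  ∀ g : Eu ι → ℝ, Continuous g →
    ∫ x in {x : Eu ι | ab x ∈ D}, g x = ∑ σ : ι → Bool, ∫ y in D, g (sg σ y)

/-- JOB DIR. Fix the coordinates `y_j`, `j ≠ i`: the `y_i` with `y ∈ D` form an interval `[0, ℓ]`, `ℓ ≤ 1`, or the
empty set (or, with `ℓ = 0`, a null set). Let `h(t)` be `∂_i f` at the point `sg σ y` with the coordinate `i` replaced by
`t`. Then `(f (sg σ y) - f (sg σ' y))² = (∫_{-y_i}^{y_i} h)² ≤ 2 y_i ∫_{-y_i}^{y_i} h²`, and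
`∫_0^ℓ 2 s ∫_{-s}^s h² dt ds = ∫_{-ℓ}^ℓ h(t)² (ℓ² - t²) dt ≤ ∫_{-ℓ}^ℓ h² = ∫_0^ℓ (h(s)² + h(-s)²) ds`. Integrate over
the other coordinates (Fubini in the coordinate `i`: `MeasurableEquiv.piFinSuccAbove`, `volume_preserving_piUnique`, or
`MeasurableEquiv.piEquivPiSubtypeProd`; `measure_lintegral` versions `lmarginal` are also convenient). Another way without
computing the inner integral: `(f (sg σ y) - f (sg σ' y))² ≤ 2 y_i ∫_{|t| ≤ y_i} h²` and Tonelli for
`∫_D 2 y_i 1_{|t| ≤ y_i}`. Here `σ' = Function.update σ i (!σ i)`. -/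
def S_DIR : Prop := ∀ (ι : Type) [Fintype ι] [DecidableEq ι] (D : Set (Eu ι)), Sol D →
  ∀ f : Eu ι → ℝ, ContDiff ℝ 1 f → ∀ (σ : ι → Bool) (i : ι),
    ∫ y in D, (f (sg σ y) - f (sg (Function.update σ i (!σ i)) y)) ^ 2 ≤
      ∫ y in D, (fderiv ℝ f (sg σ y) (EuclideanSpace.single i 1) ^ 2 +
        fderiv ℝ f (sg (Function.update σ i (!σ i)) y) (EuclideanSpace.single i 1) ^ 2)

/-- JOB CUB. The Poincare inequality of the discrete cube (Efron-Stein). Induction on the number of coordinates, or look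
for it in the library. -/
def S_CUB : Prop := ∀ (ι : Type) [Fintype ι] [DecidableEq ι] (m : (ι → Bool) → ℝ),
  (2 : ℝ) ^ Fintype.card ι * ∑ σ, m σ ^ 2 - (∑ σ, m σ) ^ 2 ≤
    (2 : ℝ) ^ Fintype.card ι / 4 * ∑ i, ∑ σ, (m σ - m (Function.update σ i (!σ i))) ^ 2

/-- JOB EXT. From `S_CHV`, `S_DIR`, `S_CUB`. Let `N = 2^n`, `D' = {x | ab x ∈ D}`, `E' = EV D'`, `E = EV D`. By `S_CHV`
`E' g = N⁻¹ ∑_σ E (g ∘ sg σ)` (`vol D' = N vol D`). Let `h = N⁻¹ ∑_σ f ∘ sg σ`, a `C¹` function. Then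
`VV D' f = E (N⁻¹ ∑_σ f(sg σ y)² - h(y)²) + VV D h`. By `S_CUB` for each `y` and `S_DIR` the first term is at most
`(1/4) ∑_i N⁻¹ ∑_σ E (f(sg σ y) - f(sg σ' y))² ≤ (1/4) ∑_i N⁻¹ ∑_σ E (∂_i f(sg σ y)² + ∂_i f(sg σ' y)²) =
(1/2) E' ‖∇ f‖²` (`σ ↦ σ'` is a bijection; `‖∇ f‖² = ∑_i (∂_i f)²`). The second is at most
`C E ‖∇ h‖² ≤ C E' ‖∇ f‖²`, because `‖∇ h(y)‖ ≤ N⁻¹ ∑_σ ‖∇ f (sg σ y)‖` (`sg σ` is a linear isometry) and Cauchy and
Schwarz. -/
def S_EXT : Prop := ∀ (ι : Type) [Fintype ι] (D : Set (Eu ι)), Sol D → ∀ C : ℝ, 0 ≤ C → PI D C →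
  PI {x : Eu ι | ab x ∈ D} (C + 1 / 2)

/-- JOB OPN. `{x | ab x ∈ Up G}` is the closed convex set `|x_i| ≤ 1`, `|x_i| + |x_j| ≤ 1`; its points outside `Om G`
are frontier points (multiply by `1 + ε`), and the frontier of a convex set is a null set
(`Convex.addHaar_frontier`). So the integrals and the volumes agree. -/
def S_OPN : Prop := ∀ (ι : Type) [Fintype ι] (G : SimpleGraph ι),
  (IsOpen (Om G) ∧ Convex ℝ (Om G) ∧ Bornology.IsBounded (Om G) ∧ (0 : Eu ι) ∈ Om G ∧
    ∀ x ∈ Om G, -x ∈ Om G) ∧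
  ∀ g : Eu ι → ℝ, EV (Om G) g = EV {x : Eu ι | ab x ∈ Up G} g

end Q289.BG
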